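import Pool.Agent.H110.Refl.Fin2

/-!
# Steiner points can lower the reflexivity to less than a half

The reflexivity `ρ(P)` of a finite set `P` of points in the plane is the least number of reflex
vertices of a simple polygon with vertex set `P`.  It was asked whether `ρ(P ∪ S) ≥ ρ(P) / 2` for
all finite sets `S` of points in the interior of the convex hull of `P`.

We give a set `P` of 18 points in general position with `ρ(P) ≥ 5` and two points in the interior of
its convex hull such that adding them gives a set with `ρ(P ∪ S) ≤ 2`.  So the answer is no.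

The points of `P` are in `Pool.Agent.H110.Refl.PL`, the two Steiner points in
`Pool.Agent.H110.Refl.SL`, and `Pool.Agent.H110.Refl.QL` is a polygon with two reflex vertices
through all of them.  The lower bound `ρ(P) ≥ 5` is proved by an exhaustive search through all
cyclic orders of the points without crossing edges and with at most four right turns; the search
prunes partial tours by the degrees and by the connectedness of the remaining visibility graph.
-/

namespace Pool.Agent.Results.MP_d63fc1_co.SteinerReflexivity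

open Pool.Agent.H110.Refl

/-- There are a set `P` of 18 points and a set `S` of two points in the interior of its convex hull
such that `ρ(P ∪ S) ≤ 2` and `ρ(P) ≥ 5`; in particular `ρ(P ∪ S) < ρ(P) / 2`. -/
theorem result : ∃ P S : Finset Pt, P.card = 18 ∧ ¬ Collinear ℝ (P : Set Pt) ∧ S.card = 2 ∧
    Disjoint P S ∧ (∀ s ∈ S, s ∈ interior (convexHull ℝ (P : Set Pt))) ∧
    (∃ v, IsPolygonization (P ∪ S) v ∧ reflexCount (P ∪ S).card v = 2) ∧
    rho (P ∪ S) ≤ 2 ∧ 5 ≤ rho P ∧ (rho (P ∪ S) : ℝ) < (1 / 2) * (rho P : ℝ) := by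
  have hle : rho (PS PL ∪ PS SL) ≤ 2 := Nat.sInf_le ⟨vert QL, poly_QL⟩
  refine ⟨PS PL, PS SL, ?_, ?_, ?_, ?_, ?_, ⟨vert QL, poly_QL⟩, hle, five_le_rho, ?_⟩
  · rw [G4.card_PS PL PL_nodup, PL_length]
  · have hm : ∀ i, toPt (zv PL i) ∈ (PS PL : Set Pt) := fun i =>
      Finset.mem_coe.2 ((G4.mem_PS _ _).2 ⟨_, zv_mem i, rfl⟩)
    apply G3.not_collinear _ (toPt (zv PL 0)) (toPt (zv PL 4)) (toPt (zv PL 12)) (hm 0) (hm 4) (hm 12)
    rw [G4.turn_toPt]
    exact_mod_cast PL_tri
  · rw [G4.card_PS SL SL_nodup, SL_length]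
  · rw [Finset.disjoint_left]
    intro x hx hx'
    obtain ⟨p, hp, rfl⟩ := (G4.mem_PS _ _).1 hx
    obtain ⟨q, hq, hpq⟩ := (G4.mem_PS _ _).1 hx'
    rw [G4.toPt_inj hpq] at hq
    exact PS_disj p hq hp
  · intro x hx
    obtain ⟨q, hq, rfl⟩ := (G4.mem_PS _ _).1 hx
    have hm : ∀ i, toPt (zv PL i) ∈ (PS PL : Set Pt) := fun i =>
      Finset.mem_coe.2 ((G4.mem_PS _ _).2 ⟨_, zv_mem i, rfl⟩)
    obtain ⟨h1, h2, h3⟩ := SL_in q hq
    apply G3.mem_interior_hull _ (toPt (zv PL 0)) (toPt (zv PL 4)) (toPt (zv PL 12)) _ (hm 0) (hm 4) (hm 12)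
    · rw [G4.turn_toPt]; exact_mod_cast h1
    · rw [G4.turn_toPt]; exact_mod_cast h2
    · rw [G4.turn_toPt]; exact_mod_cast h3
  · have h5 : (5 : ℝ) ≤ (rho (PS PL) : ℝ) := by exact_mod_cast five_le_rho
    have h2 : (rho (PS PL ∪ PS SL) : ℝ) ≤ 2 := by exact_mod_cast hle
    linarith

end Pool.Agent.Results.MP_d63fc1_co.SteinerReflexivity
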